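import Pool.Agent.Helper40.Nm.Goals

open CategoryTheory AlgebraicGeometry Limits TensorProduct
open Pool.Agent.Helper40.Nm

namespace Pool.Agent.Helper70.Nm

section

variable {M E B : Type} [Field M] [Field E] [Algebra M E] [CommRing B] [HopfAlgebra M B] {g : ℕ}

lemma chi_add (Ψ : E ⊗[M] B ≃ₐc[E] MonoidAlgebra E (Multiplicative (Lat g))) (x y : Lat g) :
    chi Ψ (x + y) = chi Ψ x * chi Ψ y := by
  unfold chi
  rw [← map_mul, MonoidAlgebra.single_mul_single, one_mul, ofAdd_add]

lemma chi_zero (Ψ : E ⊗[M] B ≃ₐc[E] MonoidAlgebra E (Multiplicative (Lat g))) :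
    chi Ψ 0 = 1 := by
  unfold chi
  rw [ofAdd_zero, ← MonoidAlgebra.one_def, map_one]

lemma chi_nsmul (Ψ : E ⊗[M] B ≃ₐc[E] MonoidAlgebra E (Multiplicative (Lat g))) (x : Lat g)
    (n : ℕ) : chi Ψ (n • x) = chi Ψ x ^ n := by
  induction n with
  | zero => rw [zero_smul, chi_zero, pow_zero]
  | succ n ih => rw [succ_nsmul, chi_add, ih, pow_succ]

lemma psi_chi (Ψ : E ⊗[M] B ≃ₐc[E] MonoidAlgebra E (Multiplicative (Lat g))) (x : Lat g) :
    Ψ (chi Ψ x) = MonoidAlgebra.single (Multiplicative.ofAdd x) 1 := by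
  unfold chi
  exact Ψ.apply_symm_apply _

lemma map_smul' (γ : E ≃ₐ[M] E) (e : E) (z : E ⊗[M] B) :
    Algebra.TensorProduct.map (γ : E →ₐ[M] E) (AlgHom.id M B) (e • z) =
      γ e • Algebra.TensorProduct.map (γ : E →ₐ[M] E) (AlgHom.id M B) z := by
  rw [Algebra.smul_def, Algebra.smul_def, map_mul]
  congr 1

lemma evE_map (t : B →ₐ[M] M) (γ : E ≃ₐ[M] E) (z : E ⊗[M] B) :
    evE t (Algebra.TensorProduct.map (γ : E →ₐ[M] E) (AlgHom.id M B) z) = γ (evE t z) := by
  induction z with
  | zero => simp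
  | add x y hx hy => rw [map_add, map_add, hx, hy, map_add, map_add]
  | tmul e b =>
    simp only [Algebra.TensorProduct.map_tmul, evE, Algebra.TensorProduct.lift_tmul]
    simp [Algebra.ofId_apply]

lemma evE_one_tmul (t : B →ₐ[M] M) (b : B) :
    evE (E := E) t (1 ⊗ₜ b) = algebraMap M E (t b) := by
  simp [evE, Algebra.ofId_apply]

lemma fixed_of_galois [FiniteDimensional M E] [IsGalois M E] (z : E ⊗[M] B)
    (hz : ∀ γ : E ≃ₐ[M] E,
      Algebra.TensorProduct.map (γ : E →ₐ[M] E) (AlgHom.id M B) z = z) :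
    ∃ b : B, z = 1 ⊗ₜ b := by
  classical
  let 𝓫 := Module.Basis.ofVectorSpace M B
  let 𝓑 := Algebra.TensorProduct.basis E 𝓫
  have h1 : ∀ (γ : E ≃ₐ[M] E) (w : E ⊗[M] B) i,
      𝓑.repr (Algebra.TensorProduct.map (γ : E →ₐ[M] E) (AlgHom.id M B) w) i
        = γ (𝓑.repr w i) := by
    intro γ w i
    induction w with
    | zero => simp
    | add x y hx hy => rw [map_add, map_add, map_add, Finsupp.add_apply, Finsupp.add_apply, hx, hy,
        map_add]
    | tmul e b =>
      simp [𝓑, Algebra.TensorProduct.basis_repr_tmul]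
  have h2 : ∀ i, ∃ m : M, algebraMap M E m = 𝓑.repr z i := by
    intro i
    have : 𝓑.repr z i ∈ Set.range (algebraMap M E) := by
      rw [IsGalois.mem_range_algebraMap_iff_fixed]
      intro γ
      have := h1 γ z i
      rw [hz γ] at this
      exact this.symm
    exact this
  choose m hm using h2
  refine ⟨∑ i ∈ (𝓑.repr z).support, m i • 𝓫 i, ?_⟩
  rw [TensorProduct.tmul_sum]
  conv_lhs => rw [← 𝓑.linearCombination_repr z]
  rw [Finsupp.linearCombination_apply, Finsupp.sum]
  refine Finset.sum_congr rfl fun i _ => ?_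
  rw [← hm i, Algebra.TensorProduct.basis_apply, TensorProduct.tmul_smul, algebraMap_smul]

end

theorem hfun : HFUN := by
  intro M E B _ _ _ _ _ _ _ g Ψ act χ a η hact ha hη
  classical
  have hdom : IsDomain (E ⊗[M] B) :=
    MulEquiv.isDomain (MonoidAlgebra E (Multiplicative (Lat g))) (Ψ : E ⊗[M] B ≃* _)
  have hinj : Function.Injective (fun b : B => (1 : E) ⊗ₜ[M] b) :=
    Algebra.TensorProduct.includeRight_injective (algebraMap M E).injective
  have hB : IsDomain B := by
    have h0 : Function.Injective (Algebra.TensorProduct.includeRight : B →ₐ[M] E ⊗[M] B) := hinj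
    exact Function.Injective.isDomain
      ((Algebra.TensorProduct.includeRight : B →ₐ[M] E ⊗[M] B) : B →+* E ⊗[M] B) h0
  refine ⟨hB, ?_⟩
  -- the cocycle relation
  have hη2 : ∀ δ γ, η (δ * γ) = act δ (η γ) + η δ := by
    intro δ γ
    have h1 : act (δ * γ) χ = act δ (act γ χ) := by rw [map_mul]; rfl
    rw [hη, hη γ, map_add, hη δ, map_nsmul, add_assoc] at h1
    have h2 := add_left_cancel h1
    rw [← smul_add, add_comm (η δ)] at h2
    exact smul_right_injective (Lat g) ha.ne' h2
  set T : E → E ⊗[M] B := fun c => ∑ γ : E ≃ₐ[M] E, γ c • chi Ψ (η γ) with hT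
  have hTδ : ∀ (c : E) (δ : E ≃ₐ[M] E),
      Algebra.TensorProduct.map (δ : E →ₐ[M] E) (AlgHom.id M B) (T c)
        = chi Ψ (-η δ) * T c := by
    intro c δ
    rw [hT]
    simp only
    rw [map_sum, Finset.mul_sum]
    rw [← Equiv.sum_comp (Equiv.mulLeft δ) (fun γ => chi Ψ (-η δ) * (γ c • chi Ψ (η γ)))]
    refine Finset.sum_congr rfl fun γ _ => ?_
    rw [map_smul', hact]
    simp only [Equiv.coe_mulLeft]
    rw [hη2, mul_smul_comm, ← chi_add]
    congr 2
    abel
  -- a nonzero one
  have hc : ∃ c, T c ≠ 0 := by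
    by_contra hcon
    push Not at hcon
    have hlin := linearIndependent_toLinearMap M E E
    rw [Fintype.linearIndependent_iff] at hlin
    let e : (E ≃ₐ[M] E) → (E →ₐ[M] E) := fun γ => (γ : E →ₐ[M] E)
    have heinj : Function.Injective e := by
      intro γ δ h
      ext x
      exact DFunLike.congr_fun h x
    have hlin2 : LinearIndependent E (fun γ : (E ≃ₐ[M] E) =>
        ((γ : E →ₐ[M] E)).toLinearMap) :=
      (linearIndependent_toLinearMap M E E).comp e heinj
    rw [Fintype.linearIndependent_iff] at hlin2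
    have := hlin2 (fun γ => if η γ = η 1 then 1 else 0) (by
      ext c
      have h0 := hcon c
      have h1 : (Ψ (T c)).coeff (Multiplicative.ofAdd (η 1)) = 0 := by
        rw [h0, map_zero]; rfl
      rw [hT] at h1
      simp only [map_sum, map_smul, psi_chi, MonoidAlgebra.coeff_sum] at h1
      rw [Finsupp.finsetSum_apply] at h1
      simp only [LinearMap.coe_sum, Finset.sum_apply, LinearMap.smul_apply, LinearMap.zero_apply,
        AlgHom.toLinearMap_apply]
      refine Eq.trans (Finset.sum_congr rfl fun γ _ => ?_) h1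
      rw [MonoidAlgebra.coeff_smul_apply, MonoidAlgebra.coeff_single, Finsupp.single_apply]
      by_cases h : η γ = η 1
      · simp [h]
      · simp [h]
      ) 1
    simp at this
  obtain ⟨c, hc⟩ := hc
  have hchi0 : ∀ x, chi Ψ x ≠ 0 := by
    intro x h
    have := chi_add Ψ x (-x)
    rw [h, zero_mul, add_neg_cancel, chi_zero] at this
    exact one_ne_zero this
  obtain ⟨h, hh⟩ := fixed_of_galois (M := M) (E := E) (B := B) (chi Ψ χ * T c ^ a) (by
    intro γ
    rw [map_mul, map_pow, hTδ, hact, hη, mul_pow, ← chi_nsmul, ← mul_assoc, ← chi_add, smul_neg]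
    congr 2
    abel)
  refine ⟨h, ?_, ?_⟩
  · rintro rfl
    rw [TensorProduct.tmul_zero] at hh
    exact mul_ne_zero (hchi0 χ) (pow_ne_zero a hc) hh
  · intro t
    refine ⟨evE t (T c), ?_, ?_⟩
    · intro γ
      rw [← evE_map, hTδ, map_mul]
      rfl
    · rw [← evE_one_tmul, ← hh, map_mul, map_pow]
      rfl

end Pool.Agent.Helper70.Nm
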